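import Mathlib

open Filter Topology Function Set

namespace Pool.Agent.Results.MP_2c9a54_an.Classify

variable {k : ℕ}

/-- x is a positive solution of x (n + 1) = 1 / (B n * x n + x (n - 1)), n ≥ 0. -/
def IsSol (B : ZMod k → ℝ) (x : ℤ → ℝ) : Prop :=
  0 < x (-1) ∧ 0 < x 0 ∧ ∀ n : ℤ, 0 ≤ n → x (n + 1) = 1 / (B n * x n + x (n - 1))

/-- One move of the state (j, a, b): the residue j moves by 4 if B j = 0 and by 3 otherwise. -/
noncomputable def step (B : ZMod k → ℝ) (s : ZMod k × ℝ × ℝ) : ZMod k × ℝ × ℝ :=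
  if B s.1 = 0 then
    (s.1 + 4, 1 / (B (s.1 + 3) / s.2.2 + 1 / (B (s.1 + 1) * s.2.2 + s.2.1)), s.2.2)
  else (s.1 + 3, s.2.1 / (B (s.1 + 2) + 1 / B s.1), s.2.1)

/-- Started at (j, 1, 0) with B j ≠ 0, each return to j within k moves has a < 1. -/
def CondA (B : ZMod k → ℝ) : Prop :=
  ∀ j, B j ≠ 0 → ∀ n, 1 ≤ n → n ≤ k → ((step B)^[n] (j, 1, 0)).1 = j →
    ((step B)^[n] (j, 1, 0)).2.1 < 1

/-- If B vanishes on c + 4 ℤ then it vanishes at c + 2. -/
def CondB (B : ZMod k → ℝ) : Prop := ∀ c, (∀ i, B (c + 4 * i) = 0) → B (c + 2) = 0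

variable {B : ZMod k → ℝ} {x : ℤ → ℝ}

lemma IsSol.r (S : IsSol B x) (n : ℤ) {a c : ℤ} {j : ZMod k} (hn : 0 ≤ n) (hj : (n : ZMod k) = j)
    (ha : a = n + 1) (hc : c = n - 1) : x a = 1 / (B j * x n + x c) := by
  subst hj ha hc; exact S.2.2 n hn

lemma IsSol.pos (S : IsSol B x) (hB : ∀ j, 0 ≤ B j) (n : ℤ) (hn : -1 ≤ n) : 0 < x n := by
  have : ∀ n : ℤ, -1 ≤ n → 0 < x n ∧ 0 < x (n + 1) := fun n hn => by
    induction n, hn using Int.leInduction with
    | base => exact ⟨S.1, S.2.1⟩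
    | succ n hn ih =>
      refine ⟨ih.2, ?_⟩
      rw [S.r (n + 1) (c := n) (by omega) rfl rfl (by omega)]
      have := hB ((n + 1 : ℤ) : ZMod k)
      have := ih.1
      have := ih.2
      positivity
  exact (this n hn).1

/-- Scaling of a state. -/
def sc (l : ℝ) (s : ZMod k × ℝ × ℝ) : ZMod k × ℝ × ℝ := (s.1, l * s.2.1, l * s.2.2)

lemma hom (l : ℝ) (n : ℕ) (s : ZMod k × ℝ × ℝ) :
    (step B)^[n] (sc l s) = sc l ((step B)^[n] s) := by
  refine (Commute.iterate_left (f := step B) (g := sc l) (fun s => ?_) n) s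
  unfold step sc
  split_ifs
  · refine Prod.ext rfl (Prod.ext ?_ rfl)
    have : B (s.1 + 3) / (l * s.2.2) + 1 / (B (s.1 + 1) * (l * s.2.2) + l * s.2.1) =
        l⁻¹ * (B (s.1 + 3) / s.2.2 + 1 / (B (s.1 + 1) * s.2.2 + s.2.1)) := by
      rw [mul_left_comm, ← mul_add]
      simp only [div_eq_mul_inv, mul_inv]
      ring
    exact (congrArg (1 / ·) this).trans (by simp only [one_div, mul_inv, inv_inv])
  · exact Prod.ext rfl (Prod.ext (mul_div_assoc _ _ _) rfl)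

/-- The solution dominates the state s at the index n. -/
def Dom (B : ZMod k → ℝ) (x : ℤ → ℝ) (n : ℤ) (s : ZMod k × ℝ × ℝ) : Prop :=
  2 ≤ n ∧ (n : ZMod k) = s.1 ∧ 0 < s.2.1 ∧ s.2.1 ≤ x n ∧
    (B s.1 = 0 → 0 < s.2.2 ∧ s.2.2 ≤ x (n + 1))

lemma IsSol.le (S : IsSol B x) (hB : ∀ j, 0 ≤ B j) (n : ℤ) {a c : ℤ} {t : ℝ} (hn : 0 ≤ n)
    (ha : a = n + 1) (hc : c = n - 1) (t0 : 0 < t) (ht : t ≤ x c) : x a ≤ 1 / t := by
  rw [S.r n hn rfl ha hc]
  exact one_div_le_one_div_of_le t0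
    (ht.trans (le_add_of_nonneg_left (mul_nonneg (hB _) (S.pos hB n (by omega)).le)))

lemma IsSol.ge (S : IsSol B x) (hB : ∀ j, 0 ≤ B j) (n : ℤ) {a c : ℤ} {j : ZMod k} {p q : ℝ}
    (hn : 0 ≤ n) (hj : (n : ZMod k) = j) (ha : a = n + 1) (hc : c = n - 1) (hp : x n ≤ p)
    (hq : x c ≤ q) : 1 / (B j * p + q) ≤ x a := by
  rw [S.r n hn hj ha hc]
  exact one_div_le_one_div_of_le (add_pos_of_nonneg_of_pos
    (mul_nonneg (hB _) (S.pos hB n (by omega)).le) (S.pos hB c (by omega)))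
    (add_le_add (mul_le_mul_of_nonneg_left hp (hB _)) hq)

lemma pos3 (S : IsSol B x) (hB : ∀ j, 0 ≤ B j) {n : ℤ} {j : ZMod k} {a μ : ℝ} (hn : 2 ≤ n)
    (hj : (n : ZMod k) = j) (a0 : 0 < a) (ha : a ≤ x n) (hμ : 0 < B j + μ)
    (h : μ * a ≤ x (n - 1)) : Dom B x (n + 3) (j + 3, a * (1 / (B (j + 2) + 1 / (B j + μ))), a) := by
  have b2 := hB (j + 2)
  have h2 := S.le hB (n + 1) (a := n + 2) (by omega) (by omega) (by omega) a0 ha
  have h1 : x (n + 1) ≤ 1 / ((B j + μ) * a) := by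
    rw [S.r n (by omega) hj rfl rfl]
    exact one_div_le_one_div_of_le (by positivity) (by nlinarith [hB j])
  refine ⟨by omega, by push_cast; rw [hj], by positivity, ?_, fun h0 => ⟨a0, ?_⟩⟩
  · refine le_trans (le_of_eq ?_) (S.ge hB (n + 2) (j := j + 2) (by omega) (by push_cast; rw [hj])
      (by omega) (by omega) h2 h1)
    field_simp
  · have := S.ge hB (n + 3) (a := n + 3 + 1) (j := j + 3) (by omega) (by push_cast; rw [hj])
      rfl (by omega) le_rfl h2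
    simpa [show B (j + 3) = 0 from h0] using this

lemma fwd (S : IsSol B x) (hB : ∀ j, 0 ≤ B j) {n : ℤ} {s : ZMod k × ℝ × ℝ} (D : Dom B x n s) :
    ∃ n', Dom B x n' (step B s) := by
  obtain ⟨j, a, b⟩ := s
  obtain ⟨hn, hj, a0, ha, hb⟩ := D
  simp only at hj a0 ha hb
  unfold step
  split_ifs with h
  · obtain ⟨b0, hb⟩ := hb h
    have b1 := hB (j + 1)
    have b3 := hB (j + 3)
    have h3 := S.le hB (n + 2) (a := n + 3) (by omega) (by omega) (by omega) b0 hb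
    have h2 : x (n + 2) ≤ 1 / (B (j + 1) * b + a) := by
      rw [S.r (n + 1) (j := j + 1) (c := n) (by omega) (by push_cast; rw [hj]) (by omega) (by omega)]
      exact one_div_le_one_div_of_le (by positivity) (by nlinarith)
    refine ⟨n + 4, by omega, by push_cast; rw [hj], by positivity, ?_, fun h0 => ⟨b0, ?_⟩⟩
    · simpa only [mul_one_div] using S.ge hB (n + 3) (a := n + 4) (j := j + 3) (by omega)
        (by push_cast; rw [hj]) (by omega) (by omega) h3 h2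
    · have := S.ge hB (n + 4) (a := n + 4 + 1) (j := j + 4) (by omega) (by push_cast; rw [hj])
        rfl (by omega) le_rfl h3
      simpa [show B (j + 4) = 0 from h0] using this
  · have := pos3 S hB (μ := 0) hn hj a0 ha (by simpa using (hB j).lt_of_ne' h)
      (by simpa using (S.pos hB (n - 1) (by omega)).le)
    exact ⟨_, by simpa only [add_zero, mul_one_div] using this⟩

lemma fwdn (S : IsSol B x) (hB : ∀ j, 0 ≤ B j) (m : ℕ) {n : ℤ} {s : ZMod k × ℝ × ℝ}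
    (D : Dom B x n s) : ∃ n', Dom B x n' ((step B)^[m] s) := by
  induction m with
  | zero => exact ⟨n, D⟩
  | succ m ih =>
    obtain ⟨n', D'⟩ := ih
    rw [iterate_succ_apply']
    exact fwd S hB D'

/-- Strict order between states. -/
def Lt (s t : ZMod k × ℝ × ℝ) : Prop :=
  s.1 = t.1 ∧ 0 < s.2.1 ∧ s.2.1 < t.2.1 ∧ 0 < s.2.2 ∧ s.2.2 ≤ t.2.2

lemma Lt.iter (hB : ∀ j, 0 ≤ B j) (m : ℕ) {s t : ZMod k × ℝ × ℝ} (h : Lt s t) :
    Lt ((step B)^[m] s) ((step B)^[m] t) := by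
  induction m with
  | zero => exact h
  | succ m ih =>
    rw [iterate_succ_apply', iterate_succ_apply']
    generalize (step B)^[m] s = s, (step B)^[m] t = t at ih
    obtain ⟨j, a, b⟩ := s
    obtain ⟨j', a', b'⟩ := t
    obtain ⟨rfl, a0, ha, b0, hb⟩ := ih
    simp only at a0 ha b0 hb
    have := hB (j + 1)
    have := hB (j + 2)
    have := hB (j + 3)
    have := a0.trans ha
    have := b0.trans_le hb
    unfold step
    split_ifs with h
    · refine ⟨rfl, by positivity, one_div_lt_one_div_of_lt (by positivity) (add_lt_add_of_le_of_lt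
        (div_le_div_of_nonneg_left ‹_› b0 hb) (one_div_lt_one_div_of_lt (by positivity)
        (by nlinarith))), b0, hb⟩
    · have := (hB j).lt_of_ne' h
      exact ⟨rfl, by positivity, div_lt_div_of_pos_right ha (by positivity), a0, ha.le⟩

lemma lower [NeZero k] (S : IsSol B x) (hB : ∀ j, 0 ≤ B j) (h : BddAbove (x '' Ici (-1))) :
    ∃ m M, 0 < m ∧ 0 < M ∧ ∀ n, 1 ≤ n → m ≤ x n ∧ x n ≤ M := by
  obtain ⟨M, hM⟩ := h
  obtain ⟨C, hC⟩ := (finite_range B).bddAbove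
  have h1 : ∀ n, -1 ≤ n → x n ≤ M := fun n hn => hM ⟨n, hn, rfl⟩
  have M0 := S.1.trans_le (h1 _ le_rfl)
  have C0 := (hB 0).trans (hC ⟨0, rfl⟩)
  refine ⟨1 / (C * M + M), M, by positivity, M0, fun n hn => ⟨le_trans ?_ (S.ge hB (n - 1)
    (c := n - 2) (by omega) rfl (by omega) (by omega) (h1 _ (by omega)) (h1 _ (by omega))),
    h1 _ (by omega)⟩⟩
  have := hB ((n - 1 : ℤ) : ZMod k)
  exact one_div_le_one_div_of_le (by positivity)
    (add_le_add_left (mul_le_mul_of_nonneg_right (hC ⟨_, rfl⟩) M0.le) _)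

lemma necA [NeZero k] (S : IsSol B x) (hB : ∀ j, 0 ≤ B j) (h : BddAbove (x '' Ici (-1))) :
    CondA B := fun j hj n n1 _ hn => by
  obtain ⟨m, M, m0, M0, hm⟩ := lower S hB h
  obtain ⟨n, rfl⟩ := Nat.exists_eq_add_of_le' n1
  have j0 := (hB j).lt_of_ne' hj
  have j2 := hB (j + 2)
  have μ0 : 0 < m / M := by positivity
  have L := Lt.iter hB n (s := step B (j, 1, 0))
    (t := (j + 3, 1 / (B (j + 2) + 1 / (B j + m / M)), 1)) (by
    simp only [step, hj, if_false]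
    exact ⟨rfl, by positivity, one_div_lt_one_div_of_lt (by positivity) (add_lt_add_right
      (one_div_lt_one_div_of_lt j0 (by linarith)) _), one_pos, le_rfl⟩)
  rw [iterate_succ_apply] at hn ⊢
  refine lt_of_not_ge fun h1 => ?_
  have G1 := h1.trans_lt L.2.2.1
  have key : ∀ r : ℕ, ∃ J : ℤ, 2 ≤ J ∧ (J : ZMod k) = j ∧ ((step B)^[n]
      (j + 3, 1 / (B (j + 2) + 1 / (B j + m / M)), 1)).2.1 ^ r * m ≤ x J := fun r => by
    induction r with
    | zero =>
      have := NeZero.pos k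
      exact ⟨j.val + 2 * k, by omega, by simp, by
        rw [pow_zero, one_mul]; exact (hm _ (by omega)).1⟩
    | succ r ih =>
      obtain ⟨J, J2, hJ, h⟩ := ih
      have x0 := S.pos hB J (by omega)
      obtain ⟨J', D⟩ := fwdn S hB n (s := sc (x J) (j + 3, 1 / (B (j + 2) + 1 / (B j + m / M)), 1))
        (by simpa only [sc, mul_one] using pos3 S hB J2 hJ x0 le_rfl (by positivity) (le_trans (by
          rw [div_mul_eq_mul_div, div_le_iff₀ M0]
          exact mul_le_mul_of_nonneg_left (hm J (by omega)).2 m0.le) (hm (J - 1) (by omega)).1))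
      rw [hom] at D
      refine ⟨J', D.1, D.2.1.trans (L.1.symm.trans hn), le_trans ?_ D.2.2.2.1⟩
      rw [pow_succ, mul_right_comm]
      exact mul_le_mul_of_nonneg_right h (by linarith)
  obtain ⟨r, hr⟩ := pow_unbounded_of_one_lt (M / m) G1
  obtain ⟨J, J2, -, hJ⟩ := key r
  rw [div_lt_iff₀ m0] at hr
  linarith [(hm J (by omega)).2]

lemma necB [NeZero k] (S : IsSol B x) (hB : ∀ j, 0 ≤ B j) (h : BddAbove (x '' Ici (-1))) :
    CondB B := fun c hc => by
  obtain ⟨m, M, m0, M0, hm⟩ := lower S hB h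
  by_contra h2
  have c2 := (hB _).lt_of_ne' h2
  have e : ∀ i : ℕ, x (c.val + 4 * (i + 1 : ℕ) + 1) =
      B (c + 4 * i + 2) * x (c.val + 4 * i + 2) + x (c.val + 4 * i + 1) := fun i => by
    rw [S.r (c.val + 4 * (i + 1 : ℕ)) (j := c + 4 * (i + 1 : ℕ)) (c := c.val + 4 * i + 3)
      (by omega) (by simp) rfl (by omega), hc, S.r (c.val + 4 * i + 2) (a := c.val + 4 * i + 3)
      (j := c + 4 * i + 2) (c := c.val + 4 * i + 1) (by omega) (by simp) (by omega) (by omega)]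
    simp
  have mono : Monotone fun i : ℕ => x (c.val + 4 * i + 1) := monotone_nat_of_le_succ fun i => by
    rw [e]
    exact le_add_of_nonneg_left (mul_nonneg (hB _) (S.pos hB _ (by omega)).le)
  have key : ∀ r : ℕ, r * (B (c + 2) * m) ≤ x (c.val + 4 * (r * k : ℕ) + 1) := fun r => by
    induction r with
    | zero => simpa using (S.pos hB (c.val + 1) (by omega)).le
    | succ r ih =>
      have h1 := mono (show r * k + 1 ≤ (r + 1) * k by have := NeZero.pos k; nlinarith)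
      have h3 := e (r * k)
      have h4 := mul_le_mul_of_nonneg_left (hm (c.val + 4 * (r * k : ℕ) + 2) (by omega)).1 c2.le
      rw [show c + 4 * ((r * k : ℕ) : ZMod k) + 2 = c + 2 by simp] at h3
      simp only at h1
      rw [Nat.cast_succ r]
      linarith
  obtain ⟨r, hr⟩ := exists_nat_gt (M / (B (c + 2) * m))
  rw [div_lt_iff₀ (by positivity)] at hr
  linarith [key r, (hm (c.val + 4 * (r * k : ℕ) + 1) (by omega)).2]

lemma zc [NeZero k] (hb : CondB B) {c : ZMod k} (h : ∀ t : ℕ, B (c - 4 * t) = 0) (i : ZMod k) :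
    B (c + 2 * i) = 0 := by
  have h1 : ∀ i, B (c + 4 * i) = 0 := fun i => by simpa using h (-i).val
  obtain ⟨t, ht | ht⟩ := Nat.even_or_odd' i.val <;> rw [← ZMod.natCast_zmod_val i, ht]
  · convert h1 t using 2; push_cast; ring
  · convert hb (c + 4 * t) fun i => by convert h1 (t + i) using 2; ring using 2; push_cast; ring

lemma per (S : IsSol B x) {c : ZMod k} (h : ∀ i, B (c + 2 * i) = 0) :
    ∃ P, ∀ n : ℤ, -1 ≤ n → (∃ i, (n : ZMod k) = c + 1 + 2 * i) → x n ≤ P := by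
  set P := max (max (x (-1)) (1 / x (-1))) (max (x 0) (1 / x 0))
  have key : ∀ n : ℤ, -1 ≤ n → ∀ e, e = n ∨ e = n + 1 → (∃ i, (e : ZMod k) = c + 1 + 2 * i) →
      x e ≤ P ∧ 1 / x e ≤ P := fun n hn => by
    induction n, hn using Int.leInduction with
    | base => rintro _ (rfl | rfl) - <;> simp [P]
    | succ n hn ih =>
      rintro _ (rfl | rfl) ⟨i, hi⟩
      · exact ih _ (.inr rfl) ⟨i, hi⟩
      · push_cast at hi
        rw [S.r (n + 1) (j := c + 2 * i) (c := n) (by omega)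
          (by push_cast; linear_combination hi) rfl (by omega), h, zero_mul, zero_add,
          one_div_one_div]
        exact (ih n (.inl rfl) ⟨i - 1, by linear_combination hi⟩).symm
  exact ⟨P, fun n hn hi => (key n hn n (.inl rfl) hi).1⟩

lemma rel (S : IsSol B x) (hB : ∀ j, 0 ≤ B j) {m i : ℤ} {ρ : ZMod k} (h : 3 ≤ m + i)
    (hρ : (m : ZMod k) = ρ) :
    x (m + i) * x (m + (i - 2)) ≤ 1 ∧ B (ρ + (i - 1 : ℤ)) * x (m + (i - 1)) * x (m + i) ≤ 1 ∧
      x (m + i) ≤ B (ρ + (i - 3 : ℤ)) * x (m + (i - 3)) + x (m + (i - 4)) ∧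
      (B (ρ + (i - 1 : ℤ)) = 0 →
        x (m + i) = B (ρ + (i - 3 : ℤ)) * x (m + (i - 3)) + x (m + (i - 4))) ∧
      x (m + i) * (B (ρ + (i - 1 : ℤ)) * (B (ρ + (i - 3 : ℤ)) * x (m + (i - 3)) + x (m + (i - 4))) +
        (B (ρ + (i - 2 : ℤ)) * x (m + (i - 2)) + x (m + (i - 3)))) =
        (B (ρ + (i - 2 : ℤ)) * x (m + (i - 2)) + x (m + (i - 3))) *
        (B (ρ + (i - 3 : ℤ)) * x (m + (i - 3)) + x (m + (i - 4))) := by
  have c : ∀ e : ℤ, ((m + e : ℤ) : ZMod k) = ρ + e := fun e => by rw [Int.cast_add, hρ]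
  have e0 := S.r _ (a := m + i) (c := m + (i - 2)) (by omega) (c (i - 1)) (by omega) (by omega)
  have e1 := S.r _ (a := m + (i - 1)) (c := m + (i - 3)) (by omega) (c (i - 2)) (by omega) (by omega)
  have e2 := S.r _ (a := m + (i - 2)) (c := m + (i - 4)) (by omega) (c (i - 3)) (by omega) (by omega)
  have p0 := S.pos hB (m + i) (by omega)
  have p1 := S.pos hB (m + (i - 1)) (by omega)
  have p2 := S.pos hB (m + (i - 2)) (by omega)
  have p3 := S.pos hB (m + (i - 3)) (by omega)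
  have p4 := S.pos hB (m + (i - 4)) (by omega)
  have b1 := hB (ρ + (i - 1 : ℤ))
  have b2 := hB (ρ + (i - 2 : ℤ))
  have b3 := hB (ρ + (i - 3 : ℤ))
  generalize B (ρ + (i - 1 : ℤ)) = a1, B (ρ + (i - 2 : ℤ)) = a2, B (ρ + (i - 3 : ℤ)) = a3,
    x (m + i) = x0, x (m + (i - 1)) = x1, x (m + (i - 2)) = x2, x (m + (i - 3)) = x3,
    x (m + (i - 4)) = x4 at *
  have d1 : 0 < a2 * x2 + x3 := by positivity
  have d2 : 0 < a3 * x3 + x4 := by positivity
  rw [eq_div_iff (by positivity)] at e0 e1 e2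
  generalize a2 * x2 + x3 = D1, a3 * x3 + x4 = D2 at *
  have q1 := mul_nonneg (mul_nonneg b1 p1.le) p0.le
  have q2 := mul_pos p0 p2
  refine ⟨by linarith, by linarith, le_of_mul_le_mul_left (a := x2) (by linarith) p2,
    fun h0 => mul_left_cancel₀ p2.ne' (by rw [h0] at e0; linarith), ?_⟩
  linear_combination D1 * D2 * e0 - x0 * a1 * D2 * e1 - x0 * D1 * e2

lemma limit [NeZero k] (S : IsSol B x) (hB : ∀ j, 0 ≤ B j) (h : ¬BddAbove (x '' Ici (-1))) :
    ∃ (ρ : ZMod k) (y : ℤ → ℝ), y 0 = 1 ∧ ∀ i ≤ 0, (0 ≤ y i ∧ y i ≤ 1) ∧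
      ((∃ P, ∀ n : ℤ, -1 ≤ n → (n : ZMod k) = ρ + i → x n ≤ P) → y i = 0) ∧
      y i * y (i - 2) ≤ 0 ∧ B (ρ + (i - 1 : ℤ)) * y (i - 1) * y i ≤ 0 ∧
      y i ≤ B (ρ + (i - 3 : ℤ)) * y (i - 3) + y (i - 4) ∧
      (B (ρ + (i - 1 : ℤ)) = 0 → y i = B (ρ + (i - 3 : ℤ)) * y (i - 3) + y (i - 4)) ∧
      y i * (B (ρ + (i - 1 : ℤ)) * (B (ρ + (i - 3 : ℤ)) * y (i - 3) + y (i - 4)) +
        (B (ρ + (i - 2 : ℤ)) * y (i - 2) + y (i - 3))) =
        (B (ρ + (i - 2 : ℤ)) * y (i - 2) + y (i - 3)) *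
        (B (ρ + (i - 3 : ℤ)) * y (i - 3) + y (i - 4)) := by
  have ex : ∀ r : ℕ, ∃ m : ℤ, r ≤ m ∧ r ≤ x m ∧ ∀ n ∈ Icc (-1) m, x n ≤ x m := fun r => by
    obtain ⟨M, hM⟩ := ((finite_Icc (-1 : ℤ) r).image x).bddAbove
    obtain ⟨_, ⟨n, hn, rfl⟩, h1⟩ := not_bddAbove_iff.1 h (max M r)
    obtain ⟨m, hm, h2⟩ := exists_max_image _ x (finite_Icc (-1) n) ⟨n, hn, le_rfl⟩
    have h3 := h1.trans_le (h2 n ⟨hn, le_rfl⟩)
    exact ⟨m, le_of_not_gt fun h4 => (lt_of_le_of_lt (le_max_left _ _) h3).not_ge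
      (hM ⟨m, ⟨hm.1, h4.le⟩, rfl⟩), ((le_max_right _ _).trans_lt h3).le,
      fun e he => h2 e ⟨he.1, he.2.trans hm.2⟩⟩
  choose m m1 m2 m3 using ex
  have hU : (hyperfilter ℕ : Filter ℕ) ≤ atTop := Nat.hyperfilter_le_atTop
  obtain ⟨ρ, hρ⟩ := ((hyperfilter ℕ).map fun r => (m r : ZMod k)).eq_pure_of_finite
  have ev : ∀ i : ℤ, ∀ᶠ r in (hyperfilter ℕ : Filter ℕ),
      (m r : ZMod k) = ρ ∧ 3 ≤ m r + i ∧ 0 < x (m r) := fun i => by
    have : {ρ} ∈ (hyperfilter ℕ).map fun r => (m r : ZMod k) := by rw [hρ]; simp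
    filter_upwards [this, hU (eventually_ge_atTop (3 - i).toNat)] with r h1 h2
    have := m1 r
    have h2 : (3 - i).toNat ≤ r := h2
    exact ⟨h1, by omega, S.pos hB _ (by omega)⟩
  have : ∀ i : ℤ, ∃ a, i ≤ 0 → a ∈ Icc (0 : ℝ) 1 ∧
      Tendsto (fun r => x (m r + i) * (x (m r))⁻¹) (hyperfilter ℕ : Filter ℕ) (𝓝 a) := fun i => by
    by_cases hi : i ≤ 0
    · obtain ⟨a, h1, h2⟩ := (isCompact_Icc (a := (0 : ℝ)) (b := 1)).ultrafilter_le_nhds
        ((hyperfilter ℕ).map fun r => x (m r + i) * (x (m r))⁻¹) (le_principal_iff.2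
        ((ev i).mono fun r hr => ⟨mul_nonneg (S.pos hB _ (by omega)).le (inv_pos.2 hr.2.2).le,
          (mul_inv_le_iff₀ hr.2.2).2 (by simpa using m3 r _ ⟨by omega, by omega⟩)⟩))
      exact ⟨a, fun _ => ⟨h1, h2⟩⟩
    · exact ⟨0, fun h => absurd h hi⟩
  choose y hy using this
  have t0 : Tendsto (fun r => (x (m r))⁻¹) (hyperfilter ℕ : Filter ℕ) (𝓝 0) :=
    (tendsto_atTop_mono m2 tendsto_natCast_atTop_atTop).inv_tendsto_atTop.mono_left hU
  have t00 := t0.mul t0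
  rw [mul_zero] at t00
  refine ⟨ρ, y, tendsto_nhds_unique_of_eventuallyEq (hy 0 le_rfl).2 tendsto_const_nhds
    ((ev 0).mono fun r hr => by simp [hr.2.2.ne']), fun i hi => ?_⟩
  have y0 := (hy i hi).2
  have y1 := (hy (i - 1) (by omega)).2
  have y2 := (hy (i - 2) (by omega)).2
  have y3 := (hy (i - 3) (by omega)).2
  have y4 := (hy (i - 4) (by omega)).2
  have R := (ev i).mono fun r hr => And.intro (inv_pos.2 hr.2.2) (rel S hB hr.2.1 hr.1)
  have d1 := (y2.const_mul (B (ρ + (i - 2 : ℤ)))).add y3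
  have d2 := (y3.const_mul (B (ρ + (i - 3 : ℤ)))).add y4
  refine ⟨(hy i hi).1, fun ⟨P, hP⟩ => le_antisymm ?_ (hy i hi).1.1,
    le_of_tendsto_of_tendsto (y0.mul y2) t00 (R.mono fun r hr => ?_),
    le_of_tendsto_of_tendsto ((y1.const_mul _).mul y0) t00 (R.mono fun r hr => ?_),
    le_of_tendsto_of_tendsto y0 d2 (R.mono fun r hr => ?_),
    fun h0 => tendsto_nhds_unique_of_eventuallyEq y0 d2 (R.mono fun r hr => ?_),
    tendsto_nhds_unique_of_eventuallyEq (y0.mul ((d2.const_mul _).add d1)) (d1.mul d2)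
      (R.mono fun r hr => ?_)⟩
  · simpa using le_of_tendsto_of_tendsto y0 (t0.const_mul P) ((ev i).mono fun r hr =>
      mul_le_mul_of_nonneg_right (hP _ (by omega) (by rw [Int.cast_add, hr.1]))
        (inv_pos.2 hr.2.2).le)
  · exact le_trans (le_of_eq (by ring)) ((mul_le_mul_of_nonneg_right hr.2.1
      (mul_pos hr.1 hr.1).le).trans_eq (one_mul _))
  · exact le_trans (le_of_eq (by ring)) ((mul_le_mul_of_nonneg_right hr.2.2.1
      (mul_pos hr.1 hr.1).le).trans_eq (one_mul _))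
  · exact (mul_le_mul_of_nonneg_right hr.2.2.2.1 hr.1.le).trans_eq (by ring)
  · simp only
    linear_combination (x (m r))⁻¹ * hr.2.2.2.2.1 h0
  · simp only
    linear_combination (x (m r))⁻¹ * (x (m r))⁻¹ * hr.2.2.2.2.2

/-- Equality of states, the last coordinate being read only when B vanishes. -/
def Eqv (B : ZMod k → ℝ) (s t : ZMod k × ℝ × ℝ) : Prop :=
  s.1 = t.1 ∧ s.2.1 = t.2.1 ∧ (B s.1 = 0 → s.2.2 = t.2.2)

lemma Eqv.step {s t : ZMod k × ℝ × ℝ} (h : Eqv B s t) : step B s = step B t := by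
  obtain ⟨j, a, b⟩ := s
  obtain ⟨j', a', b'⟩ := t
  obtain ⟨rfl, rfl, h⟩ := h
  unfold Classify.step
  split_ifs with h0
  · obtain rfl := h h0; rfl
  · rfl

lemma suff [NeZero k] (S : IsSol B x) (hB : ∀ j, 0 ≤ B j) (ha : CondA B) (hb : CondB B) :
    BddAbove (x '' Ici (-1)) := by
  by_contra h
  obtain ⟨ρ, y, y0, Y⟩ := limit S hB h
  have nn := fun i hi => (Y i hi).1.1
  have z2 : ∀ i e, i ≤ 0 → e = i - 2 → 0 < y i → y e = 0 := fun i e hi he p => by
    subst he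
    exact le_antisymm (nonpos_of_mul_nonpos_right (Y i hi).2.2.1 p) (nn _ (by omega))
  have back : ∀ n, n ≤ -1 ∧ 0 < y n ∧ y (n - 1) = 0 → ∃ n', (n' ≤ -1 ∧ 0 < y n' ∧ y (n' - 1) = 0) ∧
      Eqv B (step B (ρ + n', y n', y (n' + 1))) (ρ + n, y n, y (n + 1)) ∧
      (B (ρ + n') = 0 → n' = n - 4 ∧ (y (n' + 1) = 0 → B (ρ + n' + 3) = 0)) := by
    rintro n ⟨hn, p, q⟩
    have q2 := z2 n _ (by omega) rfl p
    obtain ⟨-, -, -, -, r4, r5, r3⟩ := Y n (by omega)
    have r5' := (Y (n + 1) (by omega)).2.2.2.2.2.1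
    have r2 := (Y (n - 3) (by omega)).2.2.2.1
    have r3' := (Y (n - 1) (by omega)).2.2.2.2.2.2
    rw [show n + 1 - 1 = n by ring, show n + 1 - 3 = n - 2 by ring,
      show n + 1 - 4 = n - 3 by ring, q2, mul_zero, zero_add] at r5'
    rw [show n - 3 - 1 = n - 4 by ring] at r2
    rw [q, zero_mul, show n - 1 - 2 = n - 3 by ring, show n - 1 - 3 = n - 4 by ring,
      show n - 1 - 4 = n - 5 by ring] at r3'
    rw [q2, mul_zero, zero_add] at r3
    have b1 := hB (ρ + (n - 1 : ℤ))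
    have b3 := hB (ρ + (n - 3 : ℤ))
    have b4 := hB (ρ + (n - 4 : ℤ))
    have n3 := nn (n - 3) (by omega)
    have n4 := nn (n - 4) (by omega)
    have n5 := nn (n - 5) (by omega)
    have c1 : ρ + (n - 4 : ℤ) + 4 = ρ + n := by push_cast; ring
    have c2 : ρ + (n - 4 : ℤ) + 3 = ρ + (n - 1 : ℤ) := by push_cast; ring
    have c3 : ρ + (n - 4 : ℤ) + 1 = ρ + (n - 3 : ℤ) := by push_cast; ring
    have c4 : ρ + (n - 3 : ℤ) + 3 = ρ + n := by push_cast; ring
    have c5 : ρ + (n - 3 : ℤ) + 2 = ρ + (n - 1 : ℤ) := by push_cast; ring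
    have i1 : n - 4 + 1 = n - 3 := by ring
    have i2 : n - 4 - 1 = n - 5 := by ring
    rcases n3.eq_or_lt with h3 | h3
    · rw [← h3, mul_zero, zero_add] at r4 r5 r3 r3'
      have p4 := p.trans_le r4
      have h1 : B (ρ + (n - 1 : ℤ)) = 0 := by
        simpa [p.ne', p4.ne'] using r3
      have h2 := (mul_eq_zero.1 r3'.symm).resolve_left p4.ne'
      have h4 : B (ρ + (n - 4 : ℤ)) = 0 := le_antisymm (by nlinarith) b4
      refine ⟨n - 4, ⟨by omega, p4, by rw [i2]; nlinarith⟩, ?_, fun _ => ⟨rfl, fun _ => c2 ▸ h1⟩⟩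
      simp only [step, h4, if_true, c1, c2, c3, i1, ← h3, h1]
      exact ⟨rfl, by simp [r5 h1], fun h0 => h3.trans (r5' h0).symm⟩
    rcases n4.eq_or_lt with h4 | h4
    · rw [← h4, add_zero] at r4 r3
      have h1 : B (ρ + (n - 3 : ℤ)) ≠ 0 := fun h0 => by rw [h0] at r4; linarith
      have := b3.lt_of_ne' h1
      refine ⟨n - 3, ⟨by omega, h3, by rw [h4]; congr 1; ring⟩, ?_, fun h0 => absurd h0 h1⟩
      simp only [step, h1, if_false, c4, c5]
      refine ⟨rfl, ?_, fun h0 => (r5' h0).symm⟩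
      simp only
      rw [div_eq_iff (by positivity)]
      field_simp
      exact mul_left_cancel₀ h3.ne' (by linear_combination -r3)
    · have h1 : B (ρ + (n - 4 : ℤ)) = 0 := le_antisymm (by nlinarith [mul_pos h3 h4]) b4
      refine ⟨n - 4, ⟨by omega, h4, z2 (n - 3) _ (by omega) (by ring) h3⟩, ?_,
        fun _ => ⟨rfl, fun h0 => absurd (i1 ▸ h0) h3.ne'⟩⟩
      simp only [step, h1, if_true, c1, c2, c3, i1]
      refine ⟨rfl, ?_, fun h0 => (r5' h0).symm⟩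
      simp only
      rw [div_eq_iff (by positivity)]
      field_simp
      linear_combination -r3
  have start : ∃ n, n ≤ -1 ∧ 0 < y n ∧ y (n - 1) = 0 := by
    have r4 := (Y 0 le_rfl).2.2.2.2.1
    rcases (nn (0 - 4) (by omega)).eq_or_lt with h4 | h4
    · refine ⟨0 - 3, by omega, (nn _ (by omega)).lt_of_ne fun h3 => ?_, by simpa using h4.symm⟩
      rw [← h3, ← h4, y0] at r4
      linarith
    rcases (nn (0 - 5) (by omega)).eq_or_lt with h5 | h5
    · exact ⟨0 - 4, by omega, h4, by simpa using h5.symm⟩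
    · exact ⟨0 - 5, by omega, h5, z2 _ _ (by omega) (by omega) h4⟩
  choose g g1 g2 g3 using back
  obtain ⟨n0, h0⟩ := start
  set N : ℕ → {n // n ≤ -1 ∧ 0 < y n ∧ y (n - 1) = 0} :=
    fun i => (fun n => ⟨g n.1 n.2, g1 n.1 n.2⟩)^[i] ⟨n0, h0⟩ with hN
  have Ns : ∀ i, (N (i + 1)).1 = g (N i).1 (N i).2 := fun i => by
    simp only [hN, iterate_succ_apply']
  set s : ℕ → ZMod k × ℝ × ℝ := fun i => (ρ + (N i).1, y (N i).1, y ((N i).1 + 1)) with hs
  have s1 : ∀ t i, Eqv B ((step B)^[t] (s (i + t))) (s i) := fun t => by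
    induction t with
    | zero => exact fun i => ⟨rfl, rfl, fun _ => rfl⟩
    | succ t ih =>
      intro i
      rw [iterate_succ_apply', show i + (t + 1) = i + 1 + t by ring, (ih (i + 1)).step]
      simpa only [hs, Ns] using g2 (N i).1 (N i).2
  by_cases hc : ∀ j, ∀ᶠ i in atTop, ¬((s i).1 = j ∧ B j ≠ 0)
  · obtain ⟨I, hI⟩ := eventually_atTop.1 (eventually_all.2 hc)
    have z : ∀ t, B (ρ + (N (I + t)).1) = 0 := fun t =>
      not_not.1 fun h0 => hI (I + t) (by omega) _ ⟨rfl, h0⟩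
    have z1 := fun t => g3 (N (I + t)).1 (N (I + t)).2 (Ns _ ▸ z (t + 1))
    have e : ∀ t : ℕ, (N (I + t)).1 = (N I).1 - 4 * t := fun t => by
      induction t with
      | zero => simp
      | succ t ih => rw [← add_assoc, Ns, (z1 t).1, ih]; push_cast; ring
    obtain ⟨P, hP⟩ := per S (zc hb (c := ρ + (N I).1) fun t => by
      convert z t using 2; rw [e]; push_cast; ring)
    obtain ⟨Q, hQ⟩ := per S (zc hb (c := ρ + (N I).1 - 1) fun t => by
      convert (z1 t).2 ((Y _ (by have := (g1 _ (N (I + t)).2).1; omega)).2.1 ⟨P, fun n hn h1 =>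
        hP n hn ⟨-2 * (t + 1), by rw [h1, (z1 t).1, e]; push_cast; ring⟩⟩) using 2
      rw [(z1 t).1, e]; push_cast; ring)
    exact (N I).2.2.1.ne' ((Y _ (by have := (N I).2.1; omega)).2.1
      ⟨Q, fun n hn h1 => hQ n hn ⟨0, by rw [h1]; ring⟩⟩)
  simp only [not_forall, not_eventually, not_not] at hc
  obtain ⟨j, hj⟩ := hc
  have hj := frequently_atTop.1 hj
  have sem : ∀ t s, ((step B)^[t] s).1 = (fun j => if B j = 0 then j + 4 else j + 3)^[t] s.1 :=
    fun t => Semiconj.iterate_right (f := Prod.fst) (fun s => by unfold step; split_ifs <;> rfl) t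
  obtain ⟨i1, -, e1, j0⟩ := hj 0
  obtain ⟨i2, l2, e2, -⟩ := hj (i1 + 1)
  obtain ⟨t, rfl⟩ := Nat.exists_eq_add_of_le (show i1 ≤ i2 by omega)
  have pp : IsPeriodicPt (fun j => if B j = 0 then j + 4 else j + 3) t j := by
    have := (s1 t i1).1
    rwa [sem, e1, e2] at this
  have L0 := pp.minimalPeriod_pos (by omega)
  have L1 := (isPeriodicPt_minimalPeriod (fun j => if B j = 0 then j + 4 else j + 3) j).eq
  have L2 := minimalPeriod_le_card (f := fun j => if B j = 0 then j + 4 else j + 3) (x := j)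
  rw [ZMod.card] at L2
  generalize minimalPeriod (fun j => if B j = 0 then j + 4 else j + 3) j = L at L0 L1 L2
  have G1 := ha j j0 L L0 L2 ((sem _ _).trans L1)
  have one : ∀ i, (s (i + L)).1 = j →
      (s i).1 = j ∧ y (N i).1 = y (N (i + L)).1 * ((step B)^[L] (j, 1, 0)).2.1 := fun i hi => by
    have := s1 L i
    obtain ⟨L, rfl⟩ := Nat.exists_eq_add_of_le' L0
    rw [iterate_succ_apply, Eqv.step (t := sc (y (N (i + (L + 1))).1) (j, 1, 0))
      ⟨hi, (mul_one _).symm, fun h => absurd (hi ▸ h) j0⟩, ← iterate_succ_apply,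
      hom] at this
    exact ⟨this.1.symm.trans ((sem _ _).trans L1), this.2.1.symm⟩
  generalize ((step B)^[L] (j, 1, 0)).2.1 = G at G1 one
  have G0 : 0 ≤ G := by
    obtain ⟨i, l, e, -⟩ := hj L
    obtain ⟨i, rfl⟩ := Nat.exists_eq_add_of_le' l
    exact ((mul_pos_iff_of_pos_left (N _).2.2.1).1 ((one i e).2 ▸ (N i).2.2.1)).le
  have many : ∀ r i, (s (i + r * L)).1 = j → (s i).1 = j ∧ y (N i).1 ≤ G ^ r := fun r => by
    induction r with
    | zero => exact fun i hi => ⟨by simpa using hi, (Y _ (by have := (N i).2.1; omega)).1.2⟩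
    | succ r ih =>
      intro i hi
      obtain ⟨h1, h2⟩ := ih (i + L) (by rwa [show i + L + r * L = i + (r + 1) * L by ring])
      exact ⟨(one i h1).1, by rw [(one i h1).2, pow_succ]; exact mul_le_mul_of_nonneg_right h2 G0⟩
  obtain ⟨i0, -, hi0⟩ := exists_min_image _ (fun i => y (N i).1) (finite_Iio L) ⟨0, L0⟩
  obtain ⟨r, hr⟩ := exists_pow_lt_of_lt_one (N i0).2.2.1 G1
  obtain ⟨i, l, e, -⟩ := hj (r * L)
  exact ((hi0 _ (Nat.mod_lt i L0)).trans ((many (i / L) (i % L) (by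
    rwa [Nat.mod_add_div'])).2.trans (pow_le_pow_of_le_one G0 G1.le
    ((Nat.le_div_iff_mul_le L0).2 l)))).not_gt hr

theorem result (k : ℕ) (hk : 2 ≤ k) (B : ZMod k → ℝ) (hB : ∀ j, 0 ≤ B j) :
    ((∀ x, IsSol B x → BddAbove (x '' Ici (-1))) ↔ CondA B ∧ CondB B) ∧
      (¬(CondA B ∧ CondB B) → ∀ x, IsSol B x → ¬BddAbove (x '' Ici (-1))) := by
  have : NeZero k := ⟨by omega⟩
  refine ⟨⟨fun h => ?_, fun h x S => suff S hB h.1 h.2⟩,
    fun h x S hx => h ⟨necA S hB hx, necB S hB hx⟩⟩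
  let p : ℕ → ℝ × ℝ := fun n => n.rec (1, 1) fun n q => (q.2, 1 / (B n * q.2 + q.1))
  have S : IsSol B fun n => (p (n + 1).toNat).1 := ⟨one_pos, one_pos, fun n hn => by
    obtain ⟨n, rfl⟩ := Int.eq_ofNat_of_zero_le hn
    simp only [show (n + 1 + 1 : ℤ).toNat = n + 1 + 1 by omega,
      show (n + 1 : ℤ).toNat = n + 1 by omega, show (n - 1 + 1 : ℤ).toNat = n by omega,
      Int.cast_natCast]
    rfl⟩
  exact ⟨necA S hB (h _ S), necB S hB (h _ S)⟩

end Pool.Agent.Results.MP_2c9a54_an.Classify
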